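import Pool.Agent.H21.FRa

set_option autoImplicit false

namespace Pool.Agent.Results.MP_74778d_co.Balanced

open Matrix Pool.Agent.H21 FR FRa

theorem result : ∃ (n : ℕ) (G : SimpleGraph (Fin n)) (a b : Fin n), a ≠ b ∧
    ¬ (∀ θ : ℝ, E G θ a a = E G θ b b) ∧ ∃ (t : ℝ) (α β : ℂ), 0 < t ∧ ‖α‖ = 1 / √2 ∧
      ‖β‖ = 1 / √2 ∧ U G t *ᵥ Pi.single a 1 = α • Pi.single a 1 + β • Pi.single b 1 := by
  refine ⟨156, D.gr 156, 0, 1, by decide, fun h => ?_, τ, γ, γ, τp, γn, γn, by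
    simpa using ev 0 (.inl rfl)⟩
  have := h (φ _ s2 (th 0))
  rw [(dec 0 (.inl rfl)).proj 0 (inj 0), (dec 1 (.inr rfl)).proj 0 (inj 0),
    show W 0 0 (D.cell (0 : Fin 156)) = ⟨238, 168⟩ by decide +kernel,
    show W 1 0 (D.cell (1 : Fin 156)) = ⟨42, 28⟩ by decide +kernel, φa, φa,
    Complex.ofReal_inj] at this
  have := Real.sqrt_nonneg 2
  push_cast at *
  linarith

end Pool.Agent.Results.MP_74778d_co.Balanced
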